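import Pool.Agent.Lib_MP_204846_gt.Final
import Pool.Agent.Lib_MP_204846_gt.RunAll

/-!
# MP_204846_gt, Q1: full answer (yes)

There is a knot type `K` with crossing number 8 and corner connection tile number at most 15 such
that no corner connection mosaic which represents `K` with the least possible number of nonblank
tiles has exactly 8 crossing tiles. (`K` is the knot `8_3`. A mosaic with 15 tiles and 9 crossing tiles
is given in `Chain.lean`, with Reidemeister moves to a diagram with 8 crossings, whose Kauffman
bracket has span 36, so that the crossing number is 8. A mosaic of `K` with 8 crossing tiles and at
most 7 other tiles would be reduced, with an adequacy condition on the circles of its states; an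
exhaustive search, carried out by the kernel, shows that there is none.)

The definitions of the statement (diagrams as planar diagram codes, Reidemeister moves, knot types,
crossing number, tiles, mosaics, tile number) are in `Pool.Agent.Lib_MP_204846_gt.Defs`.
-/

namespace Pool.Agent.Results.MP_204846_gt.EightThree

open Pool.Agent.MP_204846_gt

/-- There is a knot whose crossing number is not realized at its corner connection tile number. -/
theorem result :
    ∃ K : KnotType, K.crossingNumber = 8 ∧ K.tileNumber ≤ 15 ∧
      (∃ (n : ℕ) (M : Mosaic n), M.Represents K ∧ M.tiles = K.tileNumber) ∧
      ∀ (n : ℕ) (M : Mosaic n), M.Represents K → M.tiles = K.tileNumber →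
        M.crossingTiles ≠ K.crossingNumber := by
  refine ⟨D₈.type, crossingNumber_D₈, tileNumber_le, exists_tileNumber, ?_⟩
  intro n M hM ht
  rw [crossingNumber_D₈]
  exact final runAll M hM (by rw [ht]; exact tileNumber_le)

end Pool.Agent.Results.MP_204846_gt.EightThree
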